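import Mathlib

namespace Pool.Agent.Results.MP_fad2aa_co.Disproof

/-- `l` is a straight line of the Euclidean plane, as a set of points of `ℝ × ℝ`. -/
def IsLine (l : Set (ℝ × ℝ)) : Prop :=
  ∃ a b c : ℝ, (a ≠ 0 ∨ b ≠ 0) ∧ l = {p : ℝ × ℝ | a * p.1 + b * p.2 = c}

/-- The number of incidences `I(P, L)`. -/
noncomputable def inc (P : Finset (ℝ × ℝ)) (L : Finset (Set (ℝ × ℝ))) : ℕ :=
  {x : (ℝ × ℝ) × Set (ℝ × ℝ) | x.1 ∈ P ∧ x.2 ∈ L ∧ x.1 ∈ x.2}.ncard

/-- The projective map with matrix `M` sends the point `p` of the plane to the point `q` of the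
plane (in homogeneous coordinates `M (p, 1)` is a nonzero multiple of `(q, 1)`). -/
def Maps (M : Matrix (Fin 3) (Fin 3) ℝ) (p q : ℝ × ℝ) : Prop :=
  ∃ w : ℝ, w ≠ 0 ∧ M.mulVec ![p.1, p.2, 1] = w • ![q.1, q.2, 1]

/-- Some projective transformation maps the set `X` into a lattice section
`{1, ..., a} × {1, ..., b}` of size `a * b` at most `s`. -/
def FitsSection (X : Set (ℝ × ℝ)) (s : ℝ) : Prop :=
  ∃ M : Matrix (Fin 3) (Fin 3) ℝ, M.det ≠ 0 ∧ ∃ a b : ℕ, (a : ℝ) * b ≤ s ∧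
    ∀ p ∈ X, ∃ i j : ℕ, 1 ≤ i ∧ i ≤ a ∧ 1 ≤ j ∧ j ≤ b ∧ Maps M p ((i : ℝ), (j : ℝ))

/-- The non-vertical line `y = s x - t` whose dual point is `q = (s, t)`. -/
def dualLine (q : ℝ × ℝ) : Set (ℝ × ℝ) := {p : ℝ × ℝ | p.2 = q.1 * p.1 - q.2}

/-- Alternative (a) of the question, with constants `c` and `C`. -/
def AltA (P : Finset (ℝ × ℝ)) (c C : ℝ) : Prop :=
  ∃ P' ⊆ P, c * P.card ≤ P'.card ∧ FitsSection (P' : Set (ℝ × ℝ)) (C * P.card)

/-- Alternative (b) of the question, with constants `c` and `C`: the lines of `L'` are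
non-vertical and `D` is the set of their dual points. -/
def AltB (L : Finset (Set (ℝ × ℝ))) (c C : ℝ) : Prop :=
  ∃ L' ⊆ L, c * L.card ≤ L'.card ∧
    ∃ D : Set (ℝ × ℝ), dualLine '' D = (L' : Set (Set (ℝ × ℝ))) ∧ FitsSection D (C * L.card)

/-- Sanity check: a lattice section fits into a lattice section of its own size. -/
lemma fitsSection_self (a b : ℕ) :
    FitsSection {p : ℝ × ℝ | ∃ i j : ℕ, 1 ≤ i ∧ i ≤ a ∧ 1 ≤ j ∧ j ≤ b ∧ p = ((i : ℝ), (j : ℝ))}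
      ((a : ℝ) * b) := by
  refine ⟨1, by simp, a, b, le_rfl, ?_⟩
  rintro p ⟨i, j, h1, h2, h3, h4, rfl⟩
  exact ⟨i, j, h1, h2, h3, h4, 1, one_ne_zero, by simp⟩

/-- The numbers `a + b √2` with integers `0 ≤ a, b < k`. -/
noncomputable def G (k : ℕ) : Finset ℝ :=
  ((Finset.range k) ×ˢ (Finset.range k)).image (fun x => (x.1 : ℝ) + x.2 * √2)

lemma sqrt2_indep (a b : ℤ) (h : (a:ℝ) + b * √2 = 0) : a = 0 ∧ b = 0 := by
  have hb : b = 0 := by
    by_contra hb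
    have hirr : Irrational √2 := irrational_sqrt_two
    apply hirr
    refine ⟨((-a : ℤ) : ℚ) / (b : ℚ), ?_⟩
    have hb' : (b : ℝ) ≠ 0 := by exact_mod_cast hb
    push_cast
    field_simp
    linarith
  subst hb
  refine ⟨?_, rfl⟩
  have : (a:ℝ) = 0 := by simpa using h
  exact_mod_cast this

lemma pair_inj : Function.Injective (fun x : ℕ × ℕ => (x.1 : ℝ) + x.2 * √2) := by
  rintro ⟨a, b⟩ ⟨c, d⟩ h
  simp only at h
  have := sqrt2_indep ((a:ℤ) - c) ((b:ℤ) - d) (by push_cast; linarith)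
  ext <;> simp <;> omega

lemma card_G (k : ℕ) : (G k).card = k * k := by
  unfold G
  rw [Finset.card_image_of_injective _ pair_inj]
  simp

/-- The heart of the matter: a projective map cannot send four suitable collinear points with
coordinates in `ℤ[√2]` to points with integer coordinates. -/
lemma cross_core (e f e' f' : ℝ) (hD : e * f' - e' * f ≠ 0) (a1 a2 a3 a4 b b4 : ℤ)
    (h12 : a1 ≠ a2) (h13 : a1 ≠ a3) (h23 : a2 ≠ a3) (hb : b4 ≠ b)
    (w1 w2 w3 w4 : ℝ) (hw1 : w1 ≠ 0) (hw2 : w2 ≠ 0) (hw3 : w3 ≠ 0) (hw4 : w4 ≠ 0)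
    (P1 P2 P3 P4 Q1 Q2 Q3 Q4 : ℤ)
    (e1 : (a1 + b * √2) * e + f = w1 * P1) (g1 : (a1 + b * √2) * e' + f' = w1 * Q1)
    (e2 : (a2 + b * √2) * e + f = w2 * P2) (g2 : (a2 + b * √2) * e' + f' = w2 * Q2)
    (e3 : (a3 + b * √2) * e + f = w3 * P3) (g3 : (a3 + b * √2) * e' + f' = w3 * Q3)
    (e4 : (a4 + b4 * √2) * e + f = w4 * P4) (g4 : (a4 + b4 * √2) * e' + f' = w4 * Q4) :
    False := by
  set D := e * f' - e' * f with hDdef
  have key : ∀ (x y w v : ℝ) (p q r s : ℤ), x * e + f = w * p → x * e' + f' = w * q →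
      y * e + f = v * r → y * e' + f' = v * s → (x - y) * D = w * v * (p * s - r * q) := by
    intro x y w v p q r s h1 h2 h3 h4
    have : (x - y) * D = (x * e + f) * (y * e' + f') - (y * e + f) * (x * e' + f') := by
      rw [hDdef]; ring
    rw [this, h1, h2, h3, h4]; ring
  have k13 := key _ _ _ _ _ _ _ _ e1 g1 e3 g3
  have k24 := key _ _ _ _ _ _ _ _ e2 g2 e4 g4
  have k14 := key _ _ _ _ _ _ _ _ e1 g1 e4 g4
  have k23 := key _ _ _ _ _ _ _ _ e2 g2 e3 g3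
  set n13 : ℤ := P1 * Q3 - P3 * Q1 with hn13
  set n24 : ℤ := P2 * Q4 - P4 * Q2 with hn24
  set n14 : ℤ := P1 * Q4 - P4 * Q1 with hn14
  set n23 : ℤ := P2 * Q3 - P3 * Q2 with hn23
  have k13' : ((a1:ℝ) - a3) * D = w1 * w3 * n13 := by
    rw [hn13]; push_cast; rw [← k13]; ring
  have k24' : (((a2:ℝ) - a4) + (b - b4) * √2) * D = w2 * w4 * n24 := by
    rw [hn24]; push_cast; rw [← k24]; ring
  have k14' : (((a1:ℝ) - a4) + (b - b4) * √2) * D = w1 * w4 * n14 := by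
    rw [hn14]; push_cast; rw [← k14]; ring
  have k23' : ((a2:ℝ) - a3) * D = w2 * w3 * n23 := by
    rw [hn23]; push_cast; rw [← k23]; ring
  have hW : w1 * w2 * w3 * w4 ≠ 0 := by positivity
  have hDD : D * D ≠ 0 := mul_ne_zero hD hD
  have main : ((a1:ℝ) - a3) * (((a2:ℝ) - a4) + (b - b4) * √2) * (n14 * n23) =
      ((a2:ℝ) - a3) * (((a1:ℝ) - a4) + (b - b4) * √2) * (n13 * n24) := by
    have h := mul_left_cancel₀ (mul_ne_zero hW hDD) (a := (w1 * w2 * w3 * w4) * (D * D))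
      (b := ((a1:ℝ) - a3) * (((a2:ℝ) - a4) + (b - b4) * √2) * (n14 * n23))
      (c := ((a2:ℝ) - a3) * (((a1:ℝ) - a4) + (b - b4) * √2) * (n13 * n24)) ?_
    · exact h
    · calc (w1 * w2 * w3 * w4) * (D * D) *
            (((a1:ℝ) - a3) * (((a2:ℝ) - a4) + (b - b4) * √2) * (n14 * n23))
          = (((a1:ℝ) - a3) * D) * ((((a2:ℝ) - a4) + (b - b4) * √2) * D) *
              ((w1 * w4 * n14) * (w2 * w3 * n23)) := by ring
        _ = (w1 * w3 * n13) * (w2 * w4 * n24) * (((((a1:ℝ) - a4) + (b - b4) * √2) * D) *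
              (((a2:ℝ) - a3) * D)) := by rw [k13', k24', k14', k23']
        _ = _ := by ring
  have hind := sqrt2_indep
    ((a1 - a3) * (n14 * n23) * (a2 - a4) - (a2 - a3) * (n13 * n24) * (a1 - a4))
    ((a1 - a3) * (n14 * n23) * (b - b4) - (a2 - a3) * (n13 * n24) * (b - b4))
    (by push_cast; linarith)
  obtain ⟨h1, h2⟩ := hind
  have hbb : b - b4 ≠ 0 := sub_ne_zero.mpr hb.symm
  have hAB : (a1 - a3) * (n14 * n23) = (a2 - a3) * (n13 * n24) := by
    have : ((a1 - a3) * (n14 * n23) - (a2 - a3) * (n13 * n24)) * (b - b4) = 0 := by linarith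
    rcases mul_eq_zero.mp this with h | h
    · linarith
    · exact absurd h hbb
  have hn23' : n23 ≠ 0 := by
    intro h0
    rw [h0] at k23'
    have : ((a2:ℝ) - a3) * D = 0 := by rw [k23']; simp
    rcases mul_eq_zero.mp this with h | h
    · apply h23; exact_mod_cast sub_eq_zero.mp h
    · exact hD h
  have hn14' : n14 ≠ 0 := by
    intro h0
    rw [h0] at k14'
    have : (((a1:ℝ) - a4) + (b - b4) * √2) * D = 0 := by rw [k14']; simp
    rcases mul_eq_zero.mp this with h | h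
    · have := sqrt2_indep (a1 - a4) (b - b4) (by push_cast; linarith)
      exact hbb this.2
    · exact hD h
  have hA : (a1 - a3) * (n14 * n23) ≠ 0 :=
    mul_ne_zero (sub_ne_zero.mpr h13) (mul_ne_zero hn14' hn23')
  rw [← hAB] at h1
  have : (a1 - a3) * (n14 * n23) * (a2 - a1) = 0 := by linarith
  rcases mul_eq_zero.mp this with h | h
  · exact hA h
  · apply h12; linarith

lemma det_minor (M : Matrix (Fin 3) (Fin 3) ℝ) (y : ℝ) (hM : M.det ≠ 0) :
    ∃ p q : Fin 3, M p 0 * (y * M q 1 + M q 2) - M q 0 * (y * M p 1 + M p 2) ≠ 0 := by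
  by_contra h
  push Not at h
  apply hM
  rw [Matrix.det_fin_three]
  have h01 := h 0 1
  have h02 := h 0 2
  have h12 := h 1 2
  linear_combination (-(M 2 1)) * h01 + (M 1 1) * h02 + (-(M 0 1)) * h12

lemma fiber_bound (k : ℕ) (y : ℝ) (M : Matrix (Fin 3) (Fin 3) ℝ) (hM : M.det ≠ 0)
    (X : Finset ℝ) (hX : X ⊆ G k)
    (h : ∀ x ∈ X, ∃ i j : ℤ, Maps M (x, y) (i, j)) : X.card ≤ 2 * k := by
  classical
  by_contra hcon
  push Not at hcon
  set Y := ((Finset.range k) ×ˢ (Finset.range k)).filter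
    (fun x => (x.1 : ℝ) + x.2 * √2 ∈ X) with hY
  have hYX : X = Y.image (fun x => (x.1 : ℝ) + x.2 * √2) := by
    ext x
    constructor
    · intro hx
      have := hX hx
      unfold G at this
      rw [Finset.mem_image] at this ⊢
      obtain ⟨z, hz, rfl⟩ := this
      exact ⟨z, by rw [hY, Finset.mem_filter]; exact ⟨hz, hx⟩, rfl⟩
    · intro hx
      rw [Finset.mem_image] at hx
      obtain ⟨z, hz, rfl⟩ := hx
      rw [hY, Finset.mem_filter] at hz
      exact hz.2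
  have hYcard : Y.card = X.card := by
    conv_rhs => rw [hYX]
    rw [Finset.card_image_of_injective _ pair_inj]
  have hmaps : ∀ a ∈ Y, a.2 ∈ Finset.range k := by
    intro a ha
    rw [hY, Finset.mem_filter, Finset.mem_product] at ha
    exact ha.1.2
  obtain ⟨b, hb, hbf⟩ := Finset.exists_lt_card_fiber_of_mul_lt_card_of_maps_to hmaps
    (n := 2) (by rw [hYcard, Finset.card_range]; linarith)
  rw [Finset.two_lt_card] at hbf
  obtain ⟨u1, hu1, u2, hu2, u3, hu3, h12, h13, h23⟩ := hbf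
  rw [Finset.mem_filter] at hu1 hu2 hu3
  -- an element outside the row
  have hex : ∃ u4 ∈ Y, u4.2 ≠ b := by
    by_contra hno
    push Not at hno
    have hsub : Y ⊆ (Finset.range k) ×ˢ {b} := by
      intro a ha
      have h2 := hno a ha
      rw [hY, Finset.mem_filter, Finset.mem_product] at ha
      rw [Finset.mem_product]
      exact ⟨ha.1.1, by simp [h2]⟩
    have := Finset.card_le_card hsub
    simp at this
    omega
  obtain ⟨u4, hu4, h4b⟩ := hex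
  have hval : ∀ u ∈ Y, ∃ i j : ℤ, Maps M ((u.1 : ℝ) + u.2 * √2, y) (i, j) := by
    intro u hu
    rw [hY, Finset.mem_filter] at hu
    exact h _ hu.2
  have hcoord : ∀ u ∈ Y, ∃ w : ℝ, w ≠ 0 ∧ ∀ p : Fin 3, ∃ z : ℤ,
      (((u.1 : ℤ) : ℝ) + ((u.2 : ℤ) : ℝ) * √2) * M p 0 + (y * M p 1 + M p 2) = w * z := by
    intro u hu
    obtain ⟨i, j, w, hw, hm⟩ := hval u hu
    refine ⟨w, hw, ?_⟩
    intro p
    refine ⟨![i, j, 1] p, ?_⟩
    have := congrFun hm p
    simp only [Matrix.mulVec, dotProduct, Fin.sum_univ_three, Pi.smul_apply, smul_eq_mul] at this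
    simp only [Matrix.cons_val_zero, Matrix.cons_val_one, Matrix.cons_val] at this
    push_cast
    fin_cases p <;> simp at this ⊢ <;> linarith
  obtain ⟨p, q, hpq⟩ := det_minor M y hM
  obtain ⟨w1, hw1, c1⟩ := hcoord u1 hu1.1
  obtain ⟨w2, hw2, c2⟩ := hcoord u2 hu2.1
  obtain ⟨w3, hw3, c3⟩ := hcoord u3 hu3.1
  obtain ⟨w4, hw4, c4⟩ := hcoord u4 hu4
  obtain ⟨P1, hP1⟩ := c1 p
  obtain ⟨P2, hP2⟩ := c2 p
  obtain ⟨P3, hP3⟩ := c3 p
  obtain ⟨P4, hP4⟩ := c4 p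
  obtain ⟨Q1, hQ1⟩ := c1 q
  obtain ⟨Q2, hQ2⟩ := c2 q
  obtain ⟨Q3, hQ3⟩ := c3 q
  obtain ⟨Q4, hQ4⟩ := c4 q
  have r1 := hu1.2
  have r2 := hu2.2
  have r3 := hu3.2
  rw [r1] at hP1 hQ1
  rw [r2] at hP2 hQ2
  rw [r3] at hP3 hQ3
  have d12 : (u1.1 : ℤ) ≠ u2.1 := by
    intro hh
    apply h12
    ext
    · exact_mod_cast hh
    · rw [r1, r2]
  have d13 : (u1.1 : ℤ) ≠ u3.1 := by
    intro hh
    apply h13
    ext
    · exact_mod_cast hh
    · rw [r1, r3]
  have d23 : (u2.1 : ℤ) ≠ u3.1 := by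
    intro hh
    apply h23
    ext
    · exact_mod_cast hh
    · rw [r2, r3]
  have d4 : (u4.2 : ℤ) ≠ (b : ℤ) := by exact_mod_cast h4b
  exact cross_core (M p 0) (y * M p 1 + M p 2) (M q 0) (y * M q 1 + M q 2) hpq
    u1.1 u2.1 u3.1 u4.1 b u4.2 d12 d13 d23 d4 w1 w2 w3 w4 hw1 hw2 hw3 hw4
    P1 P2 P3 P4 Q1 Q2 Q3 Q4 hP1 hQ1 hP2 hQ2 hP3 hQ3 hP4 hQ4

lemma grid_bound (k : ℕ) (B : Finset ℝ) (M : Matrix (Fin 3) (Fin 3) ℝ) (hM : M.det ≠ 0)
    (X : Finset (ℝ × ℝ)) (hX : X ⊆ G k ×ˢ B)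
    (h : ∀ p ∈ X, ∃ i j : ℤ, Maps M p (i, j)) : X.card ≤ 2 * k * B.card := by
  classical
  have h1 : X.card ≤ 2 * k * (X.image Prod.snd).card := by
    apply Finset.card_le_mul_card_image
    intro b hb
    have : (X.filter (fun a => a.2 = b)).card = ((X.filter (fun a => a.2 = b)).image Prod.fst).card := by
      rw [Finset.card_image_of_injOn]
      intro u hu v hv huv
      simp only [Finset.coe_filter, Set.mem_ofPred_eq] at hu hv
      ext
      · exact huv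
      · rw [hu.2, hv.2]
    rw [this]
    apply fiber_bound k b M hM
    · intro x hx
      rw [Finset.mem_image] at hx
      obtain ⟨z, hz, rfl⟩ := hx
      rw [Finset.mem_filter] at hz
      exact (Finset.mem_product.mp (hX hz.1)).1
    · intro x hx
      rw [Finset.mem_image] at hx
      obtain ⟨z, hz, rfl⟩ := hx
      rw [Finset.mem_filter] at hz
      have := h z hz.1
      rw [← hz.2]
      exact this
  refine h1.trans (Nat.mul_le_mul_left _ (Finset.card_le_card ?_))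
  intro b hb
  rw [Finset.mem_image] at hb
  obtain ⟨z, hz, rfl⟩ := hb
  exact (Finset.mem_product.mp (hX hz)).2

lemma dualLine_isLine (q : ℝ × ℝ) : IsLine (dualLine q) := by
  refine ⟨q.1, -1, q.2, Or.inr (by norm_num), ?_⟩
  ext p
  simp only [dualLine, Set.mem_ofPred_eq]
  constructor
  · intro h
    rw [h]; ring
  · intro h
    linarith

lemma dualLine_inj : Function.Injective dualLine := by
  intro q r h
  have h0 : ((0 : ℝ), -q.2) ∈ dualLine r := by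
    rw [← h]; simp [dualLine]
  have h1 : ((1 : ℝ), q.1 - q.2) ∈ dualLine r := by
    rw [← h]; simp [dualLine]
  simp only [dualLine, Set.mem_ofPred_eq] at h0 h1
  ext
  · linarith
  · linarith

lemma mem_G {k a b : ℕ} (ha : a < k) (hb : b < k) : (a : ℝ) + b * √2 ∈ G k := by
  unfold G
  rw [Finset.mem_image]
  exact ⟨(a, b), by simp [ha, hb], rfl⟩

lemma mul_add_mem_G {k l : ℕ} {x s t : ℝ} (hx : x ∈ G k) (hs : s ∈ G l) (ht : t ∈ G (k * l)) :
    s * x + t ∈ G (4 * (k * l)) := by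
  unfold G at hx hs ht
  rw [Finset.mem_image] at hx hs ht
  obtain ⟨⟨a, b⟩, hab, rfl⟩ := hx
  obtain ⟨⟨a', b'⟩, hab', rfl⟩ := hs
  obtain ⟨⟨u, v⟩, huv, rfl⟩ := ht
  simp only [Finset.mem_product, Finset.mem_range] at hab hab' huv
  have h2 : √2 * √2 = (2 : ℝ) := Real.mul_self_sqrt (by norm_num)
  have e : ((a' : ℝ) + b' * √2) * (a + b * √2) + (u + v * √2) =
      ((a * a' + 2 * (b * b') + u : ℕ) : ℝ) + ((a * b' + b * a' + v : ℕ) : ℝ) * √2 := by
    push_cast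
    linear_combination (b * b' : ℝ) * h2
  rw [e]
  have i1 : a * a' ≤ k * l := Nat.mul_le_mul hab.1.le hab'.1.le
  have i2 : b * b' ≤ k * l := Nat.mul_le_mul hab.2.le hab'.2.le
  have i3 : a * b' ≤ k * l := Nat.mul_le_mul hab.1.le hab'.2.le
  have i4 : b * a' ≤ k * l := Nat.mul_le_mul hab.2.le hab'.1.le
  apply mem_G <;> omega

/-- The incidence count of the construction. -/
lemma inc_lower (k l : ℕ) (P : Finset (ℝ × ℝ)) (D : Finset (ℝ × ℝ))
    (hP : G k ×ˢ G (4 * (k * l)) ⊆ P)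
    (hD : G l ×ˢ (G (k * l)).image (fun t => -t) ⊆ D) (L : Finset (Set (ℝ × ℝ)))
    (hL : ∀ q ∈ D, dualLine q ∈ L) :
    (k * l) ^ 4 ≤ inc P L := by
  classical
  set T := G k ×ˢ (G l ×ˢ G (k * l)) with hT
  have hcard : T.card = (k * l) ^ 4 := by
    rw [hT, Finset.card_product, Finset.card_product, card_G, card_G, card_G]
    ring
  set F : ℝ × (ℝ × ℝ) → (ℝ × ℝ) × Set (ℝ × ℝ) :=
    fun z => ((z.1, z.2.1 * z.1 + z.2.2), dualLine (z.2.1, -z.2.2)) with hF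
  have hFinj : Function.Injective F := by
    intro z z' h
    rw [hF] at h
    simp only [Prod.mk.injEq] at h
    obtain ⟨⟨h1, _⟩, h3⟩ := h
    have h4 := dualLine_inj h3
    simp only [Prod.mk.injEq, neg_inj] at h4
    ext
    · exact h1
    · exact h4.1
    · exact h4.2
  unfold inc
  rw [← hcard, ← Finset.card_image_of_injective T hFinj, ← Set.ncard_coe_finset]
  apply Set.ncard_le_ncard
  · intro z hz
    simp only [Finset.coe_image, Set.mem_image, Finset.mem_coe] at hz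
    obtain ⟨w, hw, rfl⟩ := hz
    rw [hT, Finset.mem_product, Finset.mem_product] at hw
    obtain ⟨hx, hs, ht⟩ := hw
    refine ⟨?_, ?_, ?_⟩
    · apply hP
      rw [Finset.mem_product]
      exact ⟨hx, mul_add_mem_G hx hs ht⟩
    · apply hL
      apply hD
      rw [Finset.mem_product]
      exact ⟨hs, Finset.mem_image_of_mem _ ht⟩
    · simp [hF, dualLine]
  · apply Set.Finite.subset ((P.finite_toSet).prod (L.finite_toSet))
    intro z hz
    exact ⟨hz.1, hz.2.1⟩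

/-- A set between two grids, of any prescribed size. -/
lemma exists_between (k r m : ℕ) (hk : 0 < k) (B₀ : Finset ℝ) (hB₀ : B₀.card = r)
    (hr : k * k * r ≤ m) :
    ∃ B X, G k ×ˢ B₀ ⊆ X ∧ X ⊆ G k ×ˢ B ∧ X.card = m ∧ B.card ≤ m / (k * k) + 1 := by
  have hkk : 0 < k * k := Nat.mul_pos hk hk
  have h1 : r ≤ m / (k * k) + 1 := by
    have : r ≤ m / (k * k) := by
      rw [Nat.le_div_iff_mul_le hkk]; linarith
    omega
  obtain ⟨B, hB, hBc⟩ := Infinite.exists_superset_card_eq B₀ (m / (k * k) + 1) (by rw [hB₀]; exact h1)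
  have h2 : m ≤ (G k ×ˢ B).card := by
    rw [Finset.card_product, card_G, hBc]
    have := Nat.lt_mul_div_succ m hkk
    exact this.le
  obtain ⟨X, hX1, hX2, hX3⟩ := Finset.exists_subsuperset_card_eq
    (Finset.product_subset_product_right hB : G k ×ˢ B₀ ⊆ G k ×ˢ B)
    (by rw [Finset.card_product, card_G, hB₀]; exact hr) h2
  exact ⟨B, X, hX1, hX2, hX3, hBc.le⟩

/-- No positive proportion of such a set is projectively equivalent to a set of lattice points. -/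
lemma no_fit (c : ℝ) (k m : ℕ) (hk : 0 < k) (hkm : k * k ≤ m) (hck : 4 < c * k)
    (B : Finset ℝ) (X Y : Finset (ℝ × ℝ)) (hX : X ⊆ G k ×ˢ B) (hB : B.card ≤ m / (k * k) + 1)
    (hY : Y ⊆ X) (hYc : c * m ≤ Y.card) (s : ℝ) : ¬ FitsSection (Y : Set (ℝ × ℝ)) s := by
  rintro ⟨M, hM, a, b, -, h⟩
  have h1 : Y.card ≤ 2 * k * B.card := by
    apply grid_bound k B M hM Y (hY.trans hX)
    intro p hp
    obtain ⟨i, j, -, -, -, -, hm⟩ := h p hp
    exact ⟨i, j, by exact_mod_cast hm⟩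
  have hkk : 0 < k * k := Nat.mul_pos hk hk
  have h2 : k * Y.card ≤ 4 * m := by
    have h3 : (k * k) * (m / (k * k)) ≤ m := Nat.mul_div_le m (k * k)
    calc k * Y.card ≤ k * (2 * k * (m / (k * k) + 1)) := by
          apply Nat.mul_le_mul_left
          exact h1.trans (Nat.mul_le_mul_left _ hB)
      _ = 2 * ((k * k) * (m / (k * k))) + 2 * (k * k) := by ring
      _ ≤ 4 * m := by omega
  have h2' : (k : ℝ) * Y.card ≤ 4 * m := by exact_mod_cast h2
  have hm : (0 : ℝ) < m := by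
    have : 0 < m := lt_of_lt_of_le hkk hkm
    exact_mod_cast this
  have hk' : (0 : ℝ) < k := by exact_mod_cast hk
  have h4 : (k : ℝ) * (c * m) ≤ 4 * m := (mul_le_mul_of_nonneg_left hYc hk'.le).trans h2'
  nlinarith

lemma exists_level (m n : ℕ) (hn : 0 < n) (k₀ : ℕ) (h : 64 * k₀ ^ 6 * n ≤ m ^ 2) :
    ∃ k, k₀ ≤ k ∧ 64 * k ^ 6 * n ≤ m ^ 2 ∧ m ^ 2 < 64 * (k + 1) ^ 6 * n := by
  classical
  have hex : ∃ j, m ^ 2 < 64 * (j + 1) ^ 6 * n := by
    refine ⟨m ^ 2, ?_⟩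
    have h1 : m ^ 2 < m ^ 2 + 1 := Nat.lt_succ_self _
    have h2 : m ^ 2 + 1 ≤ (m ^ 2 + 1) ^ 6 := Nat.le_self_pow (by norm_num) _
    have h3 : (m ^ 2 + 1) ^ 6 ≤ 64 * (m ^ 2 + 1) ^ 6 * n := by nlinarith [Nat.one_le_iff_ne_zero.mpr hn.ne']
    omega
  refine ⟨Nat.find hex, ?_, ?_, Nat.find_spec hex⟩
  · by_contra hlt
    push Not at hlt
    have h1 := Nat.find_spec hex
    have h2 : (Nat.find hex + 1) ^ 6 ≤ k₀ ^ 6 := Nat.pow_le_pow_left hlt 6
    have h3 : 64 * (Nat.find hex + 1) ^ 6 * n ≤ 64 * k₀ ^ 6 * n := by gcongr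
    omega
  · rcases Nat.eq_zero_or_pos (Nat.find hex) with h0 | h0
    · rw [h0]; simp
    · have := Nat.find_min hex (Nat.sub_lt h0 Nat.one_pos)
      push Not at this
      rwa [Nat.sub_add_cancel h0] at this

lemma size_bound {m n k l : ℕ} (hm : 0 < m) (hn : 0 < n) (h1 : 64 * k ^ 6 * n ≤ m ^ 2)
    (h2 : 64 * l ^ 6 * m ≤ n ^ 2) : 64 * (k ^ 4 * l ^ 2) ≤ m := by
  have h3 : (64 * (k ^ 4 * l ^ 2)) ^ 3 * (m * n ^ 2) ≤ m ^ 3 * (m * n ^ 2) := by
    calc (64 * (k ^ 4 * l ^ 2)) ^ 3 * (m * n ^ 2)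
        = (64 * k ^ 6 * n) ^ 2 * (64 * l ^ 6 * m) := by ring
      _ ≤ (m ^ 2) ^ 2 * n ^ 2 := Nat.mul_le_mul (Nat.pow_le_pow_left h1 2) h2
      _ = m ^ 3 * (m * n ^ 2) := by ring
  have h4 : (64 * (k ^ 4 * l ^ 2)) ^ 3 ≤ m ^ 3 :=
    Nat.le_of_mul_le_mul_right h3 (by positivity)
  exact (Nat.pow_le_pow_iff_left (by norm_num)).mp h4

lemma rpow_bound {m n k l : ℕ} (hm : 0 < m) (hn : 0 < n) (hk : 0 < k) (hl : 0 < l)
    (h1 : m ^ 2 < 64 * (k + 1) ^ 6 * n) (h2 : n ^ 2 < 64 * (l + 1) ^ 6 * m) :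
    (1 / 65536 : ℝ) * (m : ℝ) ^ (2 / 3 : ℝ) * (n : ℝ) ^ (2 / 3 : ℝ) ≤ ((k * l) ^ 4 : ℕ) := by
  have a1 : (k + 1) ^ 6 ≤ 64 * k ^ 6 := by
    calc (k + 1) ^ 6 ≤ (2 * k) ^ 6 := Nat.pow_le_pow_left (by omega) 6
      _ = 64 * k ^ 6 := by ring
  have a2 : (l + 1) ^ 6 ≤ 64 * l ^ 6 := by
    calc (l + 1) ^ 6 ≤ (2 * l) ^ 6 := Nat.pow_le_pow_left (by omega) 6
      _ = 64 * l ^ 6 := by ring
  have b1 : m ^ 2 ≤ 4096 * k ^ 6 * n := by
    calc m ^ 2 ≤ 64 * (k + 1) ^ 6 * n := h1.le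
      _ ≤ 64 * (64 * k ^ 6) * n := by gcongr
      _ = _ := by ring
  have b2 : n ^ 2 ≤ 4096 * l ^ 6 * m := by
    calc n ^ 2 ≤ 64 * (l + 1) ^ 6 * m := h2.le
      _ ≤ 64 * (64 * l ^ 6) * m := by gcongr
      _ = _ := by ring
  have b3 : (m * n) * (m * n) ≤ (16 * (k * l)) ^ 6 * (m * n) := by
    calc (m * n) * (m * n) = m ^ 2 * n ^ 2 := by ring
      _ ≤ (4096 * k ^ 6 * n) * (4096 * l ^ 6 * m) := Nat.mul_le_mul b1 b2
      _ = _ := by ring
  have b4 : m * n ≤ (16 * (k * l)) ^ 6 := Nat.le_of_mul_le_mul_right b3 (by positivity)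
  have b5 : (m : ℝ) * n ≤ (16 * ((k : ℝ) * l)) ^ 6 := by exact_mod_cast b4
  have c1 : (m : ℝ) ^ (2 / 3 : ℝ) * (n : ℝ) ^ (2 / 3 : ℝ) = ((m : ℝ) * n) ^ (2 / 3 : ℝ) := by
    rw [Real.mul_rpow (by positivity) (by positivity)]
  have c2 : ((m : ℝ) * n) ^ (2 / 3 : ℝ) ≤ ((16 * ((k : ℝ) * l)) ^ 6) ^ (2 / 3 : ℝ) :=
    Real.rpow_le_rpow (by positivity) b5 (by norm_num)
  have c3 : ((16 * ((k : ℝ) * l)) ^ 6) ^ (2 / 3 : ℝ) = (16 * ((k : ℝ) * l)) ^ 4 := by
    rw [← Real.rpow_natCast, ← Real.rpow_mul (by positivity), ← Real.rpow_natCast]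
    norm_num
  rw [mul_assoc, c1]
  push_cast
  calc (1 / 65536 : ℝ) * ((m : ℝ) * n) ^ (2 / 3 : ℝ)
      ≤ (1 / 65536 : ℝ) * (16 * ((k : ℝ) * l)) ^ 4 := by
        rw [← c3]
        exact mul_le_mul_of_nonneg_left c2 (by norm_num)
    _ = ((k : ℝ) * l) ^ 4 := by ring

theorem full_range : ∃ c₃ : ℝ, 0 < c₃ ∧ ∀ c : ℝ, 0 < c → ∃ K : ℕ, ∀ m n : ℕ, 0 < m → 0 < n →
    K * n ≤ m ^ 2 → K * m ≤ n ^ 2 →
    ∃ (P : Finset (ℝ × ℝ)) (L : Finset (Set (ℝ × ℝ))), P.card = m ∧ L.card = n ∧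
      (∀ l ∈ L, IsLine l) ∧
      c₃ * (m : ℝ) ^ (2 / 3 : ℝ) * (n : ℝ) ^ (2 / 3 : ℝ) ≤ inc P L ∧
      ∀ C : ℝ, ¬ AltA P c C ∧ ¬ AltB L c C := by
  classical
  refine ⟨1 / 65536, by norm_num, ?_⟩
  intro c hc
  obtain ⟨k₀, hk₀⟩ := exists_nat_gt (4 / c)
  have hk₀' : 4 < c * k₀ := by
    rw [div_lt_iff₀ hc] at hk₀
    linarith
  have hk₀pos : 0 < k₀ := by
    rcases Nat.eq_zero_or_pos k₀ with h | h
    · rw [h] at hk₀'; norm_num at hk₀'
    · exact h
  refine ⟨64 * k₀ ^ 6, ?_⟩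
  intro m n hm hn hmn hnm
  obtain ⟨k, hkk₀, hk1, hk2⟩ := exists_level m n hn k₀ hmn
  obtain ⟨l, hlk₀, hl1, hl2⟩ := exists_level n m hm k₀ hnm
  have hk : 0 < k := lt_of_lt_of_le hk₀pos hkk₀
  have hl : 0 < l := lt_of_lt_of_le hk₀pos hlk₀
  have sm : 64 * (k ^ 4 * l ^ 2) ≤ m := size_bound hm hn hk1 hl1
  have sn : 64 * (l ^ 4 * k ^ 2) ≤ n := size_bound hn hm hl1 hk1
  have hck : 4 < c * k := lt_of_lt_of_le hk₀' (by gcongr)
  have hcl : 4 < c * l := lt_of_lt_of_le hk₀' (by gcongr)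
  have hkm : k * k ≤ m := by
    have : k * k ≤ 64 * (k ^ 4 * l ^ 2) := by
      have e : 64 * (k ^ 4 * l ^ 2) = (k * k) * (64 * (k * l) ^ 2) := by ring
      rw [e]
      exact Nat.le_mul_of_pos_right _ (by positivity)
    omega
  have hln : l * l ≤ n := by
    have : l * l ≤ 64 * (l ^ 4 * k ^ 2) := by
      have e : 64 * (l ^ 4 * k ^ 2) = (l * l) * (64 * (k * l) ^ 2) := by ring
      rw [e]
      exact Nat.le_mul_of_pos_right _ (by positivity)
    omega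
  obtain ⟨B, P, hP1, hP2, hP3, hBc⟩ := exists_between k ((4 * (k * l)) * (4 * (k * l))) m hk
    (G (4 * (k * l))) (card_G _) (by
      calc k * k * ((4 * (k * l)) * (4 * (k * l))) = 16 * (k ^ 4 * l ^ 2) := by ring
        _ ≤ m := by omega)
  obtain ⟨B', D, hD1, hD2, hD3, hBc'⟩ := exists_between l ((k * l) * (k * l)) n hl
    ((G (k * l)).image (fun t => -t)) (by
      rw [Finset.card_image_of_injective _ neg_injective, card_G]) (by
      calc l * l * ((k * l) * (k * l)) = (l ^ 4 * k ^ 2) := by ring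
        _ ≤ n := by omega)
  refine ⟨P, D.image dualLine, hP3, ?_, ?_, ?_, ?_⟩
  · rw [Finset.card_image_of_injective _ dualLine_inj, hD3]
  · intro x hx
    rw [Finset.mem_image] at hx
    obtain ⟨q, _, rfl⟩ := hx
    exact dualLine_isLine q
  · refine (rpow_bound hm hn hk hl hk2 hl2).trans ?_
    have := inc_lower k l P D hP1 hD1 (D.image dualLine)
      (fun q hq => Finset.mem_image_of_mem _ hq)
    exact_mod_cast this
  · intro C
    constructor
    · rintro ⟨P', hP', hcard, hfit⟩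
      rw [hP3] at hcard
      exact no_fit c k m hk hkm hck B P P' hP2 hBc hP' hcard _ hfit
    · rintro ⟨L', hL', hcard, E, hE, hfit⟩
      rw [Finset.card_image_of_injective _ dualLine_inj, hD3] at hcard
      have hED : E ⊆ (D : Set (ℝ × ℝ)) := by
        intro q hq
        have h1 : dualLine q ∈ (L' : Set (Set (ℝ × ℝ))) := by
          rw [← hE]; exact Set.mem_image_of_mem _ hq
        have h2 : dualLine q ∈ D.image dualLine := hL' (by exact_mod_cast h1)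
        rw [Finset.mem_image] at h2
        obtain ⟨q', hq', h3⟩ := h2
        rw [← dualLine_inj h3]
        exact_mod_cast hq'
      have hEfin : E.Finite := D.finite_toSet.subset hED
      have hEc : L'.card = hEfin.toFinset.card := by
        have : L' = hEfin.toFinset.image dualLine := by
          apply Finset.coe_injective
          rw [Finset.coe_image, Set.Finite.coe_toFinset, hE]
        rw [this, Finset.card_image_of_injective _ dualLine_inj]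
      rw [hEc] at hcard
      refine no_fit c l n hl hln hcl B' D hEfin.toFinset hD2 hBc' ?_ hcard
        (C * (D.image dualLine).card) ?_
      · intro q hq
        rw [Set.Finite.mem_toFinset] at hq
        exact_mod_cast hED hq
      · rwa [Set.Finite.coe_toFinset]

/-- With a suitable absolute constant `c₃`, the structural statement of the question fails for
every choice of the constants `C₁` and `c₂`. -/
theorem result : ∃ c₃ : ℝ, 0 < c₃ ∧ ∀ C₁ c₂ : ℝ, 0 < C₁ → 0 < c₂ →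
    ¬ ∃ c C : ℝ, 0 < c ∧ 0 < C ∧ ∃ N : ℕ, ∀ m n : ℕ, N ≤ m → N ≤ n →
      c₂ * √(n : ℝ) ≤ m → (m : ℝ) ≤ C₁ * (n : ℝ) ^ 2 →
      ∀ (P : Finset (ℝ × ℝ)) (L : Finset (Set (ℝ × ℝ))), P.card = m → L.card = n →
        (∀ l ∈ L, IsLine l) →
        c₃ * (m : ℝ) ^ (2 / 3 : ℝ) * (n : ℝ) ^ (2 / 3 : ℝ) ≤ inc P L →
        AltA P c C ∨ AltB L c C := by
  obtain ⟨c₃, hc₃, hmain⟩ := full_range
  refine ⟨c₃, hc₃, ?_⟩
  rintro C₁ c₂ hC₁ hc₂ ⟨c, C, hc, hC, N, hN⟩
  obtain ⟨K, hK⟩ := hmain c hc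
  obtain ⟨n₁, hn₁⟩ := exists_nat_gt (c₂ ^ 2)
  obtain ⟨n₂, hn₂⟩ := exists_nat_gt (1 / C₁)
  set n := N + K + n₁ + n₂ + 1 with hn
  have hnpos : 0 < n := by omega
  have hKn : K * n ≤ n ^ 2 := by
    rw [pow_two]
    exact Nat.mul_le_mul_right _ (by omega)
  obtain ⟨P, L, hP, hL, hlines, hinc, hfail⟩ := hK n n hnpos hnpos hKn hKn
  have hnR : (0 : ℝ) < n := by exact_mod_cast hnpos
  have h1 : c₂ * √(n : ℝ) ≤ n := by
    have a1 : c₂ ^ 2 ≤ n := by
      have : (n₁ : ℝ) ≤ n := by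
        have : n₁ ≤ n := by omega
        exact_mod_cast this
      linarith
    have a2 : c₂ ≤ √(n : ℝ) := Real.le_sqrt_of_sq_le a1
    calc c₂ * √(n : ℝ) ≤ √(n : ℝ) * √(n : ℝ) :=
          mul_le_mul_of_nonneg_right a2 (Real.sqrt_nonneg _)
      _ = n := Real.mul_self_sqrt hnR.le
  have h2 : (n : ℝ) ≤ C₁ * (n : ℝ) ^ 2 := by
    have a1 : 1 / C₁ ≤ n := by
      have : (n₂ : ℝ) ≤ n := by
        have : n₂ ≤ n := by omega
        exact_mod_cast this
      linarith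
    have a2 : 1 ≤ C₁ * n := by
      rw [div_le_iff₀ hC₁] at a1
      linarith
    nlinarith
  rcases hN n n (by omega) (by omega) h1 h2 P L hP hL hlines hinc with h | h
  · exact (hfail C).1 h
  · exact (hfail C).2 h

end Pool.Agent.Results.MP_fad2aa_co.Disproof
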